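import Pool.Agent.Run7.h697.TW.Mixed

set_option autoImplicit false

/-! # The local motivic monodromy conjecture for forms over products of ideals of maximal minors along
# the branches of a forest

Let `V` be the set of nodes of a finite rooted forest, `dep v` the depth of the node `v` (the number
of its proper ancestors), and let a vector `x_v` of `n v` variables be attached to each node `v`,
where `n` is constant on the trees and `dep v < n v` (`Forest`). For a node `v` let `I_v` be the
ideal of the maximal minors of the `(dep v + 1) × n v` matrix whose rows are the vectors of the
nodes of the branch from the root to `v` (`Forest.minor`). So `I_v` is the ideal of the coordinates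
of `x_v`, if `v` is a root, and in general the matrices of two nodes have the rows of their common
ancestors in common. In the case of a forest without branching, the minors of a tree with `m` nodes
are the Plücker coordinates on the flags of subspaces of the dimensions `1, …, m` of `ℂ ^ n`, and
their products, with the exponents `e v`, are the generating sections of the line bundle `𝒪(e)` on
the flag variety.

For `t ∈ T` let `e t v`, `v ∈ V`, be exponents, and let the `M_{t,J}` (`Forest.prods (e t) J`) be
the products of these minors, `e t v` of them from the matrix of `v`, for each `v`. They generate
the ideal `∏ v, I_v ^ e t v`. Let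

  `F_t = ∑_J y_{t,J} M_{t,J}(x)`,

where the `y_{t,J}` are further variables, separate for each `t` (`blockForm`), so `F_t` is the
general form over this product, for a forest without branching the universal section of the line
bundle `𝒪(e t)` on a product of flag varieties. Let `f = ∏ t, F_t ^ a t` (`powProd`). We suppose
that each node is used: for each `v` there is a `t` with `a t > 0` and `e t v > 0` (so the nodes
which are used are closed under passing to ancestors).

The resolution. Let `Y` be obtained from the affine space of the `x` by the following blow-ups, in
the order of the depths of the nodes `v`: the centre is the strict transform of the set where `x_v`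
lies in the span of the vectors of the proper ancestors of `v`. Let `E_v` be the exceptional
divisor, `z_v` a local equation. By induction, after the blow-ups for the ancestors the span of
their vectors extends to a subbundle of rank `dep v` (the wedge product of these vectors is the
product of the local equations of their divisors and of a nowhere vanishing section), the class of
`x_v` modulo this subbundle is a vector whose `n v - dep v` coordinates are local coordinates,
separate for the different nodes of the same depth, and the centre is the set of its zeros. So all
the centres are smooth of codimension `n v - dep v`, the divisors `E_v` cross normally, the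
multiplicity of the Jacobian determinant along `E_v` is `ν_v - 1` with `ν_v = n v - dep v`
(`Forest.codim`), and `I_w` becomes the ideal of the divisor `∑ E_v`, over the nodes `v` of the
branch which ends at `w` (`Forest.Le v w`). Locally `F_t` is one of the `M_{t,J}` times `y_{t,J} +
∑_{i ≠ J} g_i y_{t,i}`. Hence `Y` times the space of the `y` is an embedded resolution of `f`, with
the components `E_v`, of multiplicity `∑ t, a t ∑ e t w`, over the nodes `w` whose branch contains
`v`, and, for `a t > 0`, the strict transform of `F_t = 0`, with multiplicity `a t` and `ν = 1`
(`Forest.mul`, `Forest.nu`). So the local motivic zeta function `Z_{mot,0,f}` of the problem,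
computed on this resolution, is of the form `dlZ = ∑_J c_J ∏_{i ∈ J} u ^ (-ν_i) T ^ (N_i) / (1 - u ^
(-ν_i) T ^ (N_i))`, with `u = 𝕃`, `R = 𝓜 = K₀(Var_ℂ)[𝕃⁻¹]` and `c_J = 𝕃 ^ (-n) (𝕃 - 1) ^ |J| [E_J° ∩
h⁻¹(0)]` (Denef and Loeser).

Since the roots of the local Bernstein-Sato polynomial `b_{f,0}` give monodromy eigenvalues `exp(2 π
i q₁ / q₂)` of `f` at points of `f⁻¹(0)` in every neighbourhood of the origin (Malgrange,
Kashiwara), this is the statement of Q1, with `(m, σ) = (q₂, -q₁)`, and its strong form.

The proof. A functional equation of the product of powers of the `F_t` gives one of the product of
powers of the ideals `∏ v, I_v ^ e t v`, with the same `b` (`locEq_of_powProd`). A residue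
computation at a point of `E_v` at which the divisor is a Rees divisor gives the roots
(`rees_prod`). The chart (`xi`): let `c = dep v`. The vectors of the nodes `u ≠ v` are free, at the
base point `x_u = lam` times the unit vector of index `dep u`; the vector of `v` is the combination
of the vectors of its `c` proper ancestors with the coefficients `x_{v,0}, …, x_{v,c - 1}`, plus `z`
times the vector `(0, …, 0, 1, x_{v,c + 1}, …, x_{v,n - 1})`, `z = x_{v,c}`. A minor of a branch
which contains `v` is `z` times the minor in which the row of `v` is replaced by this vector, which
does not vanish at the base point for the first columns (`minor_eq`, `cc_det_ne`), and the quotients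
of the minors of the branch of `v` with the columns `0, …, c - 1, j` and `0, …, c - 1, c` are the
coordinates `x_{v,j}` (`quot_det`). A quotient of two minors is also a quotient of two products of
minors which differ in one factor; so `E_v` is a Rees divisor of the product of powers of the ideals
of the `F_t` (`mix_chart_exists`). The roots `-(1 + l) / a t` come from the strict transforms
(`strict_root`). For the local functional equations the base point has to lie over a point of the
affine space at which a given polynomial `H` with `H(0) ≠ 0` does not vanish: this is so for a
general number `lam` (`exists_base`). -/

namespace Pool.Agent.Results.MP_9321be_ag.BranchMinors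

open Pool.Agent.H628R4.TP Pool.Agent.TH192.DT Pool.Agent.R852.BM Pool.Agent.Run7.h697.TW

/-- **The local motivic monodromy conjecture for `f = ∏ t, F_t ^ a t`**, `F_t` the general form over
the product `∏ v, I_v ^ e t v` of powers of the ideals of maximal minors along the branches of a
forest. Each node is supposed to be used (`he`). There is a finite set `𝒮` of pairs `q₁ < 0 < q₂`
such that `q₁ / q₂` is a root of every `b` with `IsLocalBFunction f b`, and such that all the series
`Z` of the form of the formula of Denef and Loeser on the resolution described above, with
coefficients `χ J` in a commutative ring `R` with a unit `u` (see above), are in the ring generated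
over `R` by `T` and the `1 / (1 - u ^ q₁ T ^ q₂)`, `q ∈ 𝒮`. `IsLocalBFunction f b` says that `b(s) f
^ s = P(s) f ^ (s + 1)`, `P(s)` a differential operator with (formal, in particular convergent)
power series at the origin as coefficients; for example the local Bernstein-Sato polynomial
`b_{f,0}`. -/
theorem result {V T : Type} [Fintype V] [DecidableEq V] [Fintype T] [DecidableEq T]
    (F : Forest V) (e : T → V → ℕ) (a : T → ℕ) (he : ∀ v, ∃ t, a t ≠ 0 ∧ e t v ≠ 0) :
    ∃ 𝒮 : Finset (ℤ × ℤ), (∀ (R : Type) [CommRing R] (u : Rˣ)
        (χ : Finset {x // 0 < F.mul e a x} → R),
        dlZ u (F.nu T) (F.mul e a) χ ∈ ratU u (𝒮 : Set (ℤ × ℤ))) ∧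
      ∀ q ∈ 𝒮, q.1 < 0 ∧ 0 < q.2 ∧ ∀ b : Polynomial ℂ,
        IsLocalBFunction (powProd a fun t => F.prods (e t)) b → b.eval ((q.1 : ℂ) / q.2) = 0 := by
  obtain ⟨𝒮, h1, h2⟩ := mix_set F e a he
  exact ⟨𝒮, h1, fun q hq => ⟨(h2 q hq).1, (h2 q hq).2.1, fun b hb =>
    (h2 q hq).2.2 b (Or.inr hb)⟩⟩

end Pool.Agent.Results.MP_9321be_ag.BranchMinors
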