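import Pool.Agent.Run7.h827.MT.Main

set_option autoImplicit false

/-! # The local motivic monodromy conjecture for forms over products of ideals of minors of products of matrices

Let a rooted forest be given, with the vertices `v < K`, and let `m ≤ n_v` be numbers (`MTree`). For
each vertex `v` let `X_v` be a matrix of independent variables, with `n_v` columns, and with `m`
rows if `v` is a root and `n_u` rows if `u` is the parent of `v`. Let `P_v` be the product of the
matrices along the path from the root to `v`, an `m × n_v` matrix: `P_v = X_v` for the roots, and
`P_v = P_u X_v` if `u` is the parent of `v` (`MTree.pm`). For `q = (v, i)`, `i < m` (`MTree.Cell`),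
let `I_q` be the ideal of the maximal minors of the matrix of the first `i + 1` rows of `P_v`
(`MTree.gen`). It vanishes where the rank of this matrix is at most `i`. Let `p ≤ q`, `p = (v, i)`,
`q = (w, j)`, if `v` is `w` or an ancestor of `w`, and `i ≤ j` (`MTree.Le`).

For `t ∈ T` let `e t q` be exponents, and let the `M_{t,J}` (`MTree.prod`) be the products of such
minors, `e t q` of them of the first `i + 1` rows of `P_v`, for each `q = (v, i)`. They generate the
product `∏ q, I_q ^ e t q`. Let

  `F_t = ∑_J y_{t,J} M_{t,J}(x)`,

where the `y_{t,J}` are further variables, separate for each `t` (`blockForm`), so `F_t` is the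
general form over this product. Let `f = ∏ t, F_t ^ a t` (`powProd`). We assume that the set of the
`q` whose ideals occur in `f` is closed downwards (`MTree.Down`): if `I_q` occurs and `p ≤ q` then
`I_p` occurs. For instance, if `m = 1`, the ideals of the entries of all the products `X_{v_1} ⋯
X_{v_k}` of a row vector and of matrices, along the paths which begin in a root, may occur; or, if
the forest is a path, the ideals of the maximal minors of the first rows of `X_1`, of `X_1 X_2`, of
`X_1 X_2 X_3`, and so on; there is no other condition on the exponents.

The resolution. Let `D` be the set of the `q` which occur, and let `E_p`, `p = (v, i) ∈ D`, be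
obtained in the order of the vertices `v`, the parents before their children, and for each vertex in
the order of the `i`, as follows. Suppose that, for the parent `u` of `v`, the matrix of the first
rows of `P_u` has been written, locally, as a lower triangular matrix, with monomials in the
equations of the previous divisors on the diagonal, times a matrix `U_u` whose rows are linearly
independent at each point (for the roots `v` let `U_u` be the identity matrix). Then the rows `y_0,
y_1, …` of `U_u X_v` are independent vectors of free coordinates. One blows up, in the order of the
`i`, the subvariety on which `y_i` is in the span of the rows `0, …, i - 1` of `U_v`, which have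
been constructed before; it is smooth, of codimension `n_v - i`, and it crosses the previous
divisors transversely; after the blow-up `y_i` is a combination of these rows plus the equation of
`E_{(v, i)}` times a further vector, the row `i` of `U_v`. So one obtains a smooth variety `Y` on
which the `E_p`, `p ∈ D`, cross normally, the multiplicity of the Jacobian determinant along `E_p`
is `ν_p - 1` with `ν_p = n_v - i`, and `I_q`, `q ∈ D`, becomes the ideal of the divisor `∑_{p ≤ q}
E_p`, by the formula of Cauchy and Binet. (If `ν_p = 1` then `E_p` is not exceptional but the strict
transform of the zeros of a determinant.) Locally `F_t` is one of the `M_{t,J}` times `y_{t,J} +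
∑_{i ≠ J} g_i y_{t,i}`. Hence `Y` times the space of the `y` is an embedded resolution of `f`, with
the components `E_p`, of multiplicity `N_p = ∑ t, a t ∑_{q ≥ p} e t q`, and, for `a t > 0`, the
strict transform of `F_t = 0`, with multiplicity `a t` and `ν = 1` (`MTree.mul`, `MTree.nu`; in
these definitions all the pairs `p` are listed, those not in `D` have the multiplicity `0` and do
not matter). So the local motivic zeta function `Z_{mot,0,f}` of the problem, computed on this
resolution, is of the form `dlZ = ∑_J c_J ∏_{i ∈ J} u ^ (-ν_i) T ^ (N_i) / (1 - u ^ (-ν_i) T ^
(N_i))`, with `u = 𝕃`, `R = 𝓜 = K₀(Var_ℂ)[𝕃⁻¹]` and `c_J = 𝕃 ^ (-d) (𝕃 - 1) ^ |J| [E_J° ∩ h⁻¹(0)]`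
(Denef and Loeser), `d` the number of the variables.

Since the roots of the local Bernstein-Sato polynomial `b_{f,0}` give monodromy eigenvalues `exp(2 π
i q₁ / q₂)` of `f` at points of `f⁻¹(0)` in every neighbourhood of the origin (Malgrange,
Kashiwara), this is the statement of Q1, with `(m, σ) = (q₂, -q₁)`, and its strong form.

The proof. A functional equation of the product of powers of the `F_t` gives one of the product of
powers of the ideals `∏ q, I_q ^ e t q`, with the same `b` (`locEq_of_powProd`). A residue
computation at a general point of `E_p` gives the roots, since `E_p` is a Rees divisor of the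
product of powers of the ideals of the `F_t` (`rees_prod`). The chart (`xi`), for `p = (v, s)`: the
entries `(s, c)`, `c ≥ s`, of `X_v` are such that the row `s` of `P_v` is `∑_k q_k (row k of P_v) +
z w` (`row_v`), the sum over the `k < s`, where the `q_k` are determined by the first `s` columns,
and `w = (0, …, 0, 1, w_{s + 1}, …)` with coordinates `w_c` (`wS`); all the other entries are
coordinates `X + c` with constants `c`, which are `λ` on the diagonals of the matrices (except at
`(s, s)` for `X_v`) and `0` elsewhere (`bs`). The quotients of the minors of the first `s + 1` rows
of `P_v` by one of them are these coordinates (`MM_Jc`), so `E_p` is a Rees divisor as soon as `I_p`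
occurs. The roots `-(1 + l) / a t` come from the strict transforms (`strict_root`). For the local
functional equations the base point has to lie over a point of the affine space at which a given
polynomial `H` with `H(0) ≠ 0` does not vanish: `λ` is a general number (`exists_mul`). -/

namespace Pool.Agent.Results.MP_9321be_ag.MatrixProducts

open Pool.Agent.H628R4.TP Pool.Agent.TH192.DT Pool.Agent.R852.BM Pool.Agent.Run7.h827.MT

/-- **The local motivic monodromy conjecture for `f = ∏ t, F_t ^ a t`**, `F_t` the general form over the
product `∏ q, I_q ^ e t q` of powers of the ideals of the maximal minors of the first rows of the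
products `P_v` of generic matrices along the paths of a rooted forest, if the set of the `q` whose
ideals occur is closed downwards. There is a finite set `𝒮` of pairs `q₁ < 0 < q₂` such that `q₁ /
q₂` is a root of every `b` with `IsLocalBFunction f b`, and such that all the series `Z` of the form
of the formula of Denef and Loeser on the resolution described above, with coefficients `χ J` in a
commutative ring `R` with a unit `u` (see above), are in the ring generated over `R` by `T` and the
`1 / (1 - u ^ q₁ T ^ q₂)`, `q ∈ 𝒮`. `IsLocalBFunction f b` says that `b(s) f ^ s = P(s) f ^ (s +
1)`, `P(s)` a differential operator with (formal, in particular convergent) power series at the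
origin as coefficients; for example the local Bernstein-Sato polynomial `b_{f,0}`. -/
theorem result {T : Type} [Fintype T] [DecidableEq T] (G : MTree) (e : T → G.Cell → ℕ)
    (a : T → ℕ) (hd : G.Down e a) :
    ∃ 𝒮 : Finset (ℤ × ℤ), (∀ (R : Type) [CommRing R] (u : Rˣ)
        (χ : Finset {x // 0 < G.mul e a x} → R),
        dlZ u (G.nu T) (G.mul e a) χ ∈ ratU u (𝒮 : Set (ℤ × ℤ))) ∧
      ∀ q ∈ 𝒮, q.1 < 0 ∧ 0 < q.2 ∧ ∀ b : Polynomial ℂ,
        IsLocalBFunction (powProd a fun t => G.prod (e t)) b → b.eval ((q.1 : ℂ) / q.2) = 0 := by
  obtain ⟨𝒮, h1, h2⟩ := root_set G e a hd
  exact ⟨𝒮, h1, fun q hq => ⟨(h2 q hq).1, (h2 q hq).2.1, fun b hb =>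
    (h2 q hq).2.2 b (Or.inr hb)⟩⟩

end Pool.Agent.Results.MP_9321be_ag.MatrixProducts
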