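import Pool.Agent.Run7.h768.CS.MotW

set_option autoImplicit false

/-! # The local motivic monodromy conjecture: quadratic polynomials plus cubes of variables suffice

Every polynomial `f ∈ ℂ[x_1, ..., x_n]` with `f(0) = 0` is stably equivalent to a polynomial `F` of the form
`q + ∑_{i ∈ T} z_i ^ 3`, where `q` is a polynomial of degree at most two and `T` is a set of variables: for some
`κ` there is a polynomial automorphism in `n + 2 κ` variables which fixes the origin and maps
`f(x) + t_1 w_1 + ... + t_κ w_κ` to `F` (`StabEq`, `QC`). The local motivic monodromy conjecture (the statement Q1)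
for `F` implies the one for `f`. So it holds for all polynomials if it holds for the polynomials
`q + ∑_{i ∈ T} z_i ^ 3`, `deg q ≤ 2`. The eigenvalues of the monodromies of `f` at the points of any small
neighbourhood of the origin are the `exp(2 π i α)`, `b_{f,0}(α) = 0` (Malgrange, Kashiwara).
(For the Jacobian conjecture the reductions to cubic and to cubic linear maps are theorems of Bass, Connell and
Wright and of Druzkowski.)

Construction. The step is `f ↦ f + (t + v(x, w)) (w - u(x))`, `u(0) = v(0) = 0`, which is the image of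
`f + t w` under `w ↦ w - u(x)`, `t ↦ t + v(x, w)`. With `v = c (w + u)` it replaces a term `c u ^ 2` of `f` by
`c w ^ 2 + t w - t u`, and with `v = w ^ 2 + w u + u ^ 2` a term `u ^ 3` by `w ^ 3 + t w - t u`. By
`6 t u ^ 2 = (t + u) ^ 3 + (t - u) ^ 3 - 2 t ^ 3` the products `t u`, `u = ∑ c_j u_j ^ 2`, are treated in the same way. -/

namespace Pool.Agent.Results.MP_9321be_ag.QuadraticPlusCubes

open MvPolynomial Pool.Agent.W428.MOT Pool.Agent.N101.CB Pool.Agent.Run7.h768.CS
open Pool.Agent.H628R4.TP (IsLocalBFunction)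

/-- The complex number `l` is a monodromy eigenvalue of `f` at points near the origin, by the theorem of
Malgrange and Kashiwara: every polynomial `b` with a local functional equation `b(s) f ^ s = P(s) f ^ (s + 1)`
at the origin, in particular the local Bernstein-Sato polynomial, has a root `α` with `exp(2 π i α) = l`. -/
def IsEigenvalue {n : ℕ} (f : MvPolynomial (Fin n) ℂ) (l : ℂ) : Prop := LEig f l

/-- The local motivic monodromy conjecture for `f`: the zeta function
`Z_{mot, 0, f} = Zmot f {0} = 𝕃 ^ (-n) ∑_N [X_N] 𝕃 ^ (-n N) T ^ N` (`X_N` the jets modulo `t ^ (N + 1)` with origin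
`0` along which `f` has the order `N`) is in the ring generated over `𝓜` by `T` and the
`1 / (1 - 𝕃 ^ a T ^ m)`, for finitely many pairs of integers `(a, m)`, `m > 0`, such that `exp(2 π i a / m)` is a
monodromy eigenvalue of `f` at points near the origin. -/
def Conj {n : ℕ} (f : MvPolynomial (Fin n) ℂ) : Prop :=
  ∃ S : Finset (ℤ × ℤ), (∀ p ∈ S, 0 < p.2 ∧
    IsEigenvalue f (Complex.exp (2 * Real.pi * Complex.I * ((p.1 : ℂ) / p.2)))) ∧
    Zmot f {0} ∈ ratRing ℂ (S : Set (ℤ × ℤ))

/-- **Quadratic polynomials plus cubes of variables suffice for the local motivic monodromy conjecture.**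

First part: for every non-constant `f` in `n` variables with `f(0) = 0` there are `κ` and a non-constant `F`
with `F(0) = 0` in `m = n + 2 κ` variables, `F = q + ∑_{i ∈ T} z_i ^ 3` with `deg q ≤ 2` (`QC F`), such that
(1) `F` is the image of `f(x) + t_1 w_1 + ... + t_κ w_κ` under an automorphism of the polynomial ring which fixes
the origin (`StabEq f F κ`);
(2) `(1 - 𝕃 ^ (-κ) T) D_F(T) = 𝕃 ^ (-κ) (1 - T) D_f(𝕃 ^ (-κ) T)`, where
`D_f = Dl f = (1 - 𝕃⁻¹ T) Z_{mot, 0, f} - 𝕃 ^ (-n) (1 - 𝕃⁻¹) T`;
(3) if `s₀ < 0`, `s₀ ≠ -1`, is a pole of `Z_{mot, 0, f}`, then `s₀ - κ` is a pole of `Z_{mot, 0, F}`, where `s₀` is a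
pole of `Z` if `Z` is not in the ring generated by `T` and the `1 / (1 - 𝕃 ^ a T ^ m)`, `a / m ≠ s₀`;
(4) the monodromy eigenvalues of `F` at points near the origin are among those of `f`;
(5) the conjecture for `F` implies the conjecture for `f`.

Second part: the conjecture holds for all non-constant polynomials with `f(0) = 0`, in any
number of variables, if and only if it holds for those of the form `q + ∑_{i ∈ T} z_i ^ 3`, `deg q ≤ 2`. -/
theorem result :
    (∀ {n : ℕ} (f : MvPolynomial (Fin n) ℂ), f.totalDegree ≠ 0 → constantCoeff f = 0 →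
      ∃ (κ m : ℕ) (F : MvPolynomial (Fin m) ℂ), m = n + 2 * κ ∧ QC F ∧ F.totalDegree ≠ 0 ∧
        constantCoeff F = 0 ∧ StabEq f F κ ∧
        (1 - cYk κ * PowerSeries.X) * Dl F = cYk κ * (1 - PowerSeries.X) * rsk κ (Dl f) ∧
        (∀ s₀ : ℚ, s₀ < 0 → s₀ ≠ -1 →
          IsPole (Zmot f {0}) s₀ → IsPole (Zmot F {0}) (s₀ - κ)) ∧
        (∀ l : ℂ, IsEigenvalue F l → IsEigenvalue f l) ∧
        (Conj F → Conj f)) ∧
    ((∀ (n : ℕ) (f : MvPolynomial (Fin n) ℂ), f.totalDegree ≠ 0 → constantCoeff f = 0 →
        Conj f) ↔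
      ∀ (n : ℕ) (f : MvPolynomial (Fin n) ℂ), QC f → f.totalDegree ≠ 0 → constantCoeff f = 0 →
        Conj f) := by
  refine ⟨fun f hf hf0 => ?_, fun h n f _ => h n f, fun h n f hf hf0 => ?_⟩
  · obtain ⟨κ, m, F, hm, hF, hs, hl, hr⟩ := exists_qc f
    refine ⟨κ, m, F, hm, hF, hl.deg hf, hl.const hf0, hs, hr.loc hf0,
      fun s₀ h0 h1 => ?_, lEig_of hf hf0 hl, mconj_of hf hf0 hl hr⟩
    rw [isPole_Zmot, isPole_Zmot]
    exact hl.lpole hf0 s₀ h0 h1
  · obtain ⟨κ, m, F, -, hF, -, hl, hr⟩ := exists_qc f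
    exact mconj_of hf hf0 hl hr (h m F hF (hl.deg hf) (hl.const hf0))

end Pool.Agent.Results.MP_9321be_ag.QuadraticPlusCubes
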